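import Pool.Agent.W_MP_662637_nt.Expect

/-!
Lifting windows to larger scales.
-/

namespace Pool.Agent.W_MP_662637_nt

open Finset

/-- sum of `a` over the window of length `L` starting at `x` -/
noncomputable def Wn (a : ℕ → ℝ) (x L : ℕ) : ℝ := ∑ j ∈ range L, a (x + j)

/-- functions with values in the unit interval which are invariant under `S3` -/
structure Inv (a : ℕ → ℝ) : Prop where
  nonneg : ∀ n, 0 ≤ a n
  le_one : ∀ n, a n ≤ 1
  inv : ∀ n, a (S3 n) = a n

theorem Inv.compl {a : ℕ → ℝ} (h : Inv a) : Inv (fun n => 1 - a n) where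
  nonneg n := by have := h.le_one n; linarith
  le_one n := by have := h.nonneg n; linarith
  inv n := by rw [h.inv]

theorem Wn_nonneg {a : ℕ → ℝ} (h : Inv a) (x L : ℕ) : 0 ≤ Wn a x L :=
  sum_nonneg fun _ _ => h.nonneg _

theorem Wn_step {a : ℕ → ℝ} (h : Inv a) (x L : ℕ) : |Wn a x L - Wn a (x + 1) L| ≤ 1 := by
  unfold Wn
  have h1 := sum_range_succ (fun j => a (x + j)) L
  have h2 := sum_range_succ' (fun j => a (x + j)) L
  have h3 : ∑ j ∈ range L, a (x + 1 + j) = ∑ j ∈ range L, a (x + (j + 1)) :=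
    sum_congr rfl fun j _ => by congr 1; ring
  have e : ∑ j ∈ range L, a (x + j) - ∑ j ∈ range L, a (x + 1 + j) = a (x + 0) - a (x + L) := by
    rw [h3]; linarith
  rw [e, abs_le]
  have := h.nonneg (x + 0)
  have := h.nonneg (x + L)
  have := h.le_one (x + 0)
  have := h.le_one (x + L)
  constructor <;> linarith

theorem Wn_shift {a : ℕ → ℝ} (h : Inv a) (x L n : ℕ) : |Wn a x L - Wn a (x + n) L| ≤ n := by
  induction n with
  | zero => simp
  | succ n ih =>
    have h1 := Wn_step h (x + n) L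
    have h2 : Wn a x L - Wn a (x + (n + 1)) L =
        (Wn a x L - Wn a (x + n) L) + (Wn a (x + n) L - Wn a (x + n + 1) L) := by
      rw [← add_assoc]; ring
    rw [h2]
    push_cast
    exact (abs_add_le _ _).trans (add_le_add ih h1)

theorem Wn_shift' {a : ℕ → ℝ} (h : Inv a) (x L u : ℕ) :
    Wn a x L - |(u : ℝ) - x| ≤ Wn a u L := by
  rcases le_total x u with hle | hle
  · obtain ⟨n, rfl⟩ := Nat.exists_eq_add_of_le hle
    have h1 := Wn_shift h x L n
    have h2 : |((x + n : ℕ) : ℝ) - x| = n := by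
      push_cast
      rw [add_sub_cancel_left, abs_of_nonneg (Nat.cast_nonneg n)]
    rw [h2]
    have := (abs_le.mp h1).2
    linarith
  · obtain ⟨n, rfl⟩ := Nat.exists_eq_add_of_le hle
    have h1 := Wn_shift h u L n
    have h2 : |(u : ℝ) - (u + n : ℕ)| = n := by
      push_cast
      rw [sub_add_cancel_left, abs_neg, abs_of_nonneg (Nat.cast_nonneg n)]
    rw [h2]
    have := (abs_le.mp h1).1
    linarith

/-- density of `a` in the window of numbers starting with `T` followed by `k` digits -/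
noncomputable def Wd (a : ℕ → ℝ) (T k : ℕ) : ℝ := E k (fun t => a (S3 T + t))

theorem Wn_eq {a : ℕ → ℝ} (h : Inv a) (T k : ℕ) : Wn a (T * 10 ^ k) (10 ^ k) = 10 ^ k * Wd a T k :=
  window_eq a h.inv T k

theorem key_pow (m : ℕ) (hm : 12 ≤ m) : 449062 ^ 3 * m ^ 6 ≤ (10 ^ m) ^ 2 := by
  induction m, hm using Nat.le_induction with
  | base => norm_num
  | succ m hm ih =>
    have h1 : 12 * (m + 1) ≤ 13 * m := by omega
    have h2 : (12 * (m + 1)) ^ 6 ≤ (13 * m) ^ 6 := Nat.pow_le_pow_left h1 6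
    have h3 : 2985984 * (m + 1) ^ 6 ≤ 4826809 * m ^ 6 := by
      have e1 : (12 * (m + 1)) ^ 6 = 2985984 * (m + 1) ^ 6 := by rw [mul_pow]; norm_num
      have e2 : (13 * m) ^ 6 = 4826809 * m ^ 6 := by rw [mul_pow]; norm_num
      rwa [e1, e2] at h2
    have h4 : (m + 1) ^ 6 ≤ 100 * m ^ 6 := by
      have : 0 ≤ m ^ 6 := Nat.zero_le _
      omega
    have h5 : (10 ^ (m + 1)) ^ 2 = 100 * (10 ^ m) ^ 2 := by rw [pow_succ]; ring
    rw [h5]
    calc 449062 ^ 3 * (m + 1) ^ 6 ≤ 449062 ^ 3 * (100 * m ^ 6) := Nat.mul_le_mul_left _ h4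
      _ = 100 * (449062 ^ 3 * m ^ 6) := by ring
      _ ≤ _ := Nat.mul_le_mul_left _ ih

theorem key_sq (m x : ℕ) (hm : 12 ≤ m) (hx : x ^ 3 ≤ (10 ^ m) ^ 4) :
    449062 * x * m ^ 2 ≤ (10 ^ m) ^ 2 := by
  have h : (449062 * x * m ^ 2) ^ 3 ≤ ((10 ^ m) ^ 2) ^ 3 := by
    calc (449062 * x * m ^ 2) ^ 3 = (449062 ^ 3 * m ^ 6) * x ^ 3 := by ring
      _ ≤ (10 ^ m) ^ 2 * (10 ^ m) ^ 4 := Nat.mul_le_mul (key_pow m hm) hx
      _ = _ := by ring
  exact le_of_pow_le_pow_left₀ (by norm_num) (Nat.zero_le _) h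

theorem pow_big (m : ℕ) (hm : 12 ≤ m) : 10 ^ 12 ≤ 10 ^ m ∧ 1000 * m ≤ 10 ^ m := by
  refine ⟨Nat.pow_le_pow_right (by norm_num) hm, ?_⟩
  induction m, hm using Nat.le_induction with
  | base => norm_num
  | succ m hm ih => rw [pow_succ]; omega

theorem abs_le_of_pos (u lam : ℝ) (h : 0 < lam) : |u| ≤ (u ^ 2 / lam + lam) / 2 := by
  have h1 : 0 ≤ (|u| - lam) ^ 2 := sq_nonneg _
  have h2 : |u| ^ 2 = u ^ 2 := sq_abs u
  rw [le_div_iff₀ (by norm_num : (0 : ℝ) < 2)]
  have h3 : u ^ 2 / lam + lam = (u ^ 2 + lam ^ 2) / lam := by field_simp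
  rw [h3, le_div_iff₀ h]
  nlinarith

theorem lift {a : ℕ → ℝ} (h : Inv a) (m T : ℕ) (hm : 12 ≤ m) (hT : 1 ≤ T) (hT3 : T ^ 3 ≤ 10 ^ m) :
    ∃ m' T' : ℕ, 2 * m ≤ m' ∧ 1 ≤ T' ∧ T' ^ 3 ≤ 10 ^ m' ∧
      Wd a T m - 1 / (40 * m) ≤ Wd a T' m' := by
  obtain ⟨hL12, hLm⟩ := pow_big m hm
  set L := 10 ^ m with hL
  set x := T * L with hx
  have hxL : L ≤ x := by rw [hx]; exact Nat.le_mul_of_pos_left _ hT
  have hx3 : x ^ 3 ≤ L ^ 4 := by
    rw [hx, mul_pow]
    calc T ^ 3 * L ^ 3 ≤ L * L ^ 3 := Nat.mul_le_mul_right _ hT3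
      _ = L ^ 4 := by ring
  have hkey := key_sq m x hm hx3
  set q := (x - 1) / 405 with hq
  set c := 405 * q with hc
  have hcx : c + 1 ≤ x := by omega
  have hxc : x ≤ c + 405 := by omega
  set m' := 2 * q with hm'
  have hmu : (405 / 2 : ℝ) * m' = c := by rw [hm', hc]; push_cast; ring
  have hmpos : (0 : ℝ) < m := by exact_mod_cast (by omega : 0 < m)
  have hLpos : (0 : ℝ) < L := by exact_mod_cast (by omega : 0 < L)
  set lam : ℝ := L / (40 * m) with hlam
  have hlampos : 0 < lam := by positivity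
  -- variance bound
  have hvar : (227337 / 4 : ℝ) * m' ≤ lam ^ 2 := by
    have h1 : (m' : ℝ) * 405 ≤ 2 * x := by
      have : m' * 405 ≤ 2 * x := by omega
      exact_mod_cast this
    have h2 : (449062 : ℝ) * x * m ^ 2 ≤ L ^ 2 := by
      have : ((449062 * x * m ^ 2 : ℕ) : ℝ) ≤ ((L ^ 2 : ℕ) : ℝ) := by exact_mod_cast hkey
      push_cast at this
      exact this
    rw [hlam, div_pow, le_div_iff₀ (by positivity)]
    have h3 : (227337 / 4 : ℝ) * m' * (40 * m) ^ 2 = (m' * 405) * (227337 * 400 / 405 * m ^ 2) := by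
      ring
    rw [h3]
    have hm2 : (0 : ℝ) ≤ m ^ 2 := by positivity
    calc (m' * 405 : ℝ) * (227337 * 400 / 405 * m ^ 2) ≤ (2 * x) * (227337 * 400 / 405 * m ^ 2) :=
          mul_le_mul_of_nonneg_right h1 (by positivity)
      _ ≤ 449062 * x * m ^ 2 := by
          have hx0 : (0 : ℝ) ≤ x := Nat.cast_nonneg x
          have : (0 : ℝ) ≤ x * m ^ 2 := by positivity
          nlinarith
      _ ≤ _ := h2
  have habs : E m' (fun t => |(t : ℝ) - c|) ≤ lam := by
    have h1 : E m' (fun t => |(t : ℝ) - c|) ≤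
        E m' (fun t => (1 / (2 * lam)) * ((t : ℝ) - 405 / 2 * m') ^ 2 + lam / 2) := by
      apply E_mono
      intro t
      rw [hmu]
      have := abs_le_of_pos ((t : ℝ) - c) lam hlampos
      calc |(t : ℝ) - c| ≤ (((t : ℝ) - c) ^ 2 / lam + lam) / 2 := this
        _ = 1 / (2 * lam) * ((t : ℝ) - c) ^ 2 + lam / 2 := by field_simp
    have h2 : E m' (fun t => (1 / (2 * lam)) * ((t : ℝ) - 405 / 2 * m') ^ 2 + lam / 2) =
        (1 / (2 * lam)) * (227337 / 4 * m') + lam / 2 := by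
      rw [E_add m' (fun t => (1 / (2 * lam)) * ((t : ℝ) - 405 / 2 * m') ^ 2) (fun _ => lam / 2),
        E_mul, E_var, E_const]
    rw [h2] at h1
    have h3 : (1 / (2 * lam)) * (227337 / 4 * m') ≤ (1 / (2 * lam)) * lam ^ 2 :=
      mul_le_mul_of_nonneg_left hvar (by positivity)
    have h4 : (1 / (2 * lam)) * lam ^ 2 = lam / 2 := by field_simp
    linarith
  -- the average over the window
  have hsum : Wn a x L - lam ≤ ∑ j ∈ range L, E m' (fun t => a ((x - c + j) + t)) := by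
    rw [← E_sum]
    have h1 : Wn a x L - E m' (fun t => |(t : ℝ) - c|) =
        E m' (fun t => Wn a x L - |(t : ℝ) - c|) := by
      rw [E_sub m' (fun _ => Wn a x L), E_const]
    have h2 : E m' (fun t => Wn a x L - |(t : ℝ) - c|) ≤
        E m' (fun t => ∑ j ∈ range L, a ((x - c + j) + t)) := by
      apply E_mono
      intro t
      have h3 := Wn_shift' h x L (x - c + t)
      have h4 : ((x - c + t : ℕ) : ℝ) - x = (t : ℝ) - c := by
        rw [Nat.cast_add, Nat.cast_sub (by omega)]; ring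
      rw [h4] at h3
      have h5 : Wn a (x - c + t) L = ∑ j ∈ range L, a ((x - c + j) + t) := by
        unfold Wn
        exact sum_congr rfl fun j _ => by congr 1; ring
      rw [h5] at h3
      exact h3
    linarith
  obtain ⟨j, hj, hjle⟩ : ∃ j ∈ range L, (Wn a x L - lam) / L ≤
      E m' (fun t => a ((x - c + j) + t)) := by
    by_contra hcon
    push Not at hcon
    have h1 : ∑ j ∈ range L, E m' (fun t => a ((x - c + j) + t)) <
        ∑ _j ∈ range L, (Wn a x L - lam) / L :=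
      sum_lt_sum_of_nonempty (by rw [nonempty_range_iff]; omega) hcon
    rw [sum_const, card_range, nsmul_eq_mul, mul_div_cancel₀ _ hLpos.ne'] at h1
    linarith
  rw [mem_range] at hj
  set s := x - c + j with hs
  have hs1 : 0 < s := by omega
  have hs2 : s < L + 405 := by omega
  refine ⟨m', rep s, ?_, rep_pos hs1, ?_, ?_⟩
  · omega
  · have h1 := (rep_lt s).le
    calc rep s ^ 3 ≤ (10 ^ (s / 729 + s % 729)) ^ 3 := Nat.pow_le_pow_left h1 3
      _ = 10 ^ ((s / 729 + s % 729) * 3) := by rw [← pow_mul]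
      _ ≤ 10 ^ m' := Nat.pow_le_pow_right (by norm_num) (by omega)
  · unfold Wd at *
    rw [S3_rep]
    refine le_trans (le_of_eq ?_) hjle
    have h1 : Wn a x L = L * E m (fun t => a (S3 T + t)) := by
      have := Wn_eq h T m
      unfold Wd at this
      rw [← hL, ← hx] at this
      rw [this, hL]; push_cast; ring
    rw [h1, hlam]
    field_simp

theorem chain {a : ℕ → ℝ} (h : Inv a) (δ : ℝ) (m T : ℕ) (hm : 12 ≤ m) (hT : 1 ≤ T)
    (hT3 : T ^ 3 ≤ 10 ^ m) (hW : δ + 1 / (20 * m) ≤ Wd a T m) (M : ℕ) :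
    ∃ m' T' : ℕ, M ≤ m' ∧ 1 ≤ T' ∧ T' ^ 3 ≤ 10 ^ m' ∧ δ ≤ Wd a T' m' := by
  have main : ∀ n : ℕ, ∃ m' T' : ℕ, m + n ≤ m' ∧ 1 ≤ T' ∧ T' ^ 3 ≤ 10 ^ m' ∧
      δ + 1 / (20 * m') ≤ Wd a T' m' := by
    intro n
    induction n with
    | zero => exact ⟨m, T, le_rfl, hT, hT3, hW⟩
    | succ n ih =>
      obtain ⟨m1, T1, h1, h2, h3, h4⟩ := ih
      obtain ⟨m2, T2, k1, k2, k3, k4⟩ := lift h m1 T1 (by omega) h2 h3
      refine ⟨m2, T2, by omega, k2, k3, ?_⟩
      have hm1 : (0 : ℝ) < m1 := by exact_mod_cast (by omega : 0 < m1)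
      have hm2 : (0 : ℝ) < m2 := by exact_mod_cast (by omega : 0 < m2)
      have h5 : (2 : ℝ) * m1 ≤ m2 := by exact_mod_cast k1
      have h6 : (1 : ℝ) / (20 * m2) ≤ 1 / (40 * m1) := by
        apply one_div_le_one_div_of_le (by positivity)
        linarith
      have h7 : (1 : ℝ) / (20 * m1) = 1 / (40 * m1) + 1 / (40 * m1) := by field_simp; ring
      linarith
  obtain ⟨m', T', h1, h2, h3, h4⟩ := main M
  refine ⟨m', T', by omega, h2, h3, ?_⟩
  have : (0 : ℝ) ≤ 1 / (20 * m') := by positivity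
  linarith

end Pool.Agent.W_MP_662637_nt
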