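import Pool.Agent.W_MP_662637_nt.Compute
import Pool.Agent.W_MP_662637_nt.Lift

/-!
Correctness of the kernel computations.
-/

namespace Pool.Agent.W_MP_662637_nt

open Finset

theorem S3_eq_s5 (n : ℕ) (hn : n < 100000) : S3 n = s5 n := by
  have h0 : n = 10 * (n / 10) + n % 10 := (Nat.div_add_mod n 10).symm
  have h1 : n / 10 = 10 * (n / 10 / 10) + n / 10 % 10 := (Nat.div_add_mod (n / 10) 10).symm
  have h2 : n / 10 / 10 = 10 * (n / 10 / 10 / 10) + n / 10 / 10 % 10 :=
    (Nat.div_add_mod (n / 10 / 10) 10).symm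
  have h3 : n / 10 / 10 / 10 = 10 * (n / 10 / 10 / 10 / 10) + n / 10 / 10 / 10 % 10 :=
    (Nat.div_add_mod (n / 10 / 10 / 10) 10).symm
  have h4 : n / 10 / 10 / 10 / 10 = 10 * 0 + n / 10 / 10 / 10 / 10 := by ring
  have l4 : n / 10 / 10 / 10 / 10 < 10 := by omega
  have e4 : S3 (n / 10 / 10 / 10 / 10) = (n / 10 / 10 / 10 / 10) ^ 3 := by
    conv_lhs => rw [h4]
    rw [S3_step 0 _ l4, S3_zero, zero_add]
  have e3 : S3 (n / 10 / 10 / 10) = (n / 10 / 10 / 10 / 10) ^ 3 + (n / 10 / 10 / 10 % 10) ^ 3 := by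
    conv_lhs => rw [h3]
    rw [S3_step _ _ (Nat.mod_lt _ (by norm_num)), e4]
  have e2 : S3 (n / 10 / 10) = (n / 10 / 10 / 10 / 10) ^ 3 + (n / 10 / 10 / 10 % 10) ^ 3 +
      (n / 10 / 10 % 10) ^ 3 := by
    conv_lhs => rw [h2]
    rw [S3_step _ _ (Nat.mod_lt _ (by norm_num)), e3]
  have e1 : S3 (n / 10) = (n / 10 / 10 / 10 / 10) ^ 3 + (n / 10 / 10 / 10 % 10) ^ 3 +
      (n / 10 / 10 % 10) ^ 3 + (n / 10 % 10) ^ 3 := by
    conv_lhs => rw [h1]
    rw [S3_step _ _ (Nat.mod_lt _ (by norm_num)), e2]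
  have e0 : S3 n = (n / 10 / 10 / 10 / 10) ^ 3 + (n / 10 / 10 / 10 % 10) ^ 3 +
      (n / 10 / 10 % 10) ^ 3 + (n / 10 % 10) ^ 3 + (n % 10) ^ 3 := by
    conv_lhs => rw [h0]
    rw [S3_step _ _ (Nat.mod_lt _ (by norm_num)), e1]
  rw [e0]
  unfold s5
  have d1 : n / 10 / 10 = n / 100 := by omega
  have d2 : n / 10 / 10 / 10 = n / 1000 := by omega
  have d3 : n / 10 / 10 / 10 / 10 = n / 10000 % 10 := by omega
  rw [d3, d2, d1]

theorem cls_facts (n : ℕ) (h1 : 1 ≤ n) (h2 : n < 10300) :
    cls n = cls (S3 n) ∧ 1 ≤ S3 n ∧ S3 n ≤ 2916 := by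
  have h := allB_spec (allB_spec check_cls (n / 100) (by omega)) (n % 100)
    (Nat.mod_lt _ (by norm_num))
  have hn : 100 * (n / 100) + n % 100 = n := Nat.div_add_mod n 100
  simp only [hn, Bool.or_eq_true, Bool.and_eq_true, beq_iff_eq, Nat.ble_eq] at h
  rw [S3_eq_s5 n (by omega)]
  rcases h with h | h
  · omega
  · exact ⟨h.1, h.2.1, h.2.2⟩

theorem it_eq (k n : ℕ) (hn : n < 10300) (h1 : 1 ≤ n) : it k n = S3^[k] n := by
  induction k generalizing n with
  | zero => rfl
  | succ k ih =>
    change it k (s5 n) = _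
    have h := cls_facts n h1 hn
    rw [← S3_eq_s5 n (by omega), ih _ (by omega) h.2.1, Function.iterate_succ_apply]

theorem reach (n : ℕ) (h1 : 1 ≤ n) (h2 : n < 10300) : S3^[14] n ∈ cyc := by
  rw [Function.iterate_succ_apply]
  obtain ⟨_, h3, h4⟩ := cls_facts n h1 h2
  set m := S3 n with hm
  have h := allB_spec (allB_spec check_reach (m / 100) (by omega)) (m % 100)
    (Nat.mod_lt _ (by norm_num))
  have hn : 100 * (m / 100) + m % 100 = m := Nat.div_add_mod m 100
  simp only [hn, Bool.or_eq_true, beq_iff_eq, Nat.ble_eq] at h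
  rw [it_eq 13 m (by omega) h3] at h
  rcases h with (h | h) | h
  · omega
  · omega
  · exact List.contains_iff_mem.mp h

theorem cls_iter (n : ℕ) (h1 : 1 ≤ n) (h2 : n < 10300) (t : ℕ) :
    cls (S3^[t] n) = cls n ∧ 1 ≤ S3^[t] n ∧ S3^[t] n < 10300 := by
  induction t with
  | zero => exact ⟨rfl, h1, h2⟩
  | succ t ih =>
    rw [Function.iterate_succ_apply']
    obtain ⟨e, k1, k2⟩ := ih
    obtain ⟨f1, f2, f3⟩ := cls_facts _ k1 k2
    exact ⟨f1.symm.trans e, f2, by omega⟩

theorem cls_limit : ∀ j : Fin 6, ∀ x, x ∈ limitSet j → cls x = j.val + 1 := by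
  intro j x hx
  fin_cases j <;> simp [limitSet] at hx
  · subst hx; decide +kernel
  · subst hx; decide +kernel
  · rcases hx with rfl | rfl | rfl <;> decide +kernel
  · rcases hx with rfl | rfl | rfl <;> decide +kernel
  · rcases hx with rfl | rfl <;> decide +kernel
  · rcases hx with rfl | rfl <;> decide +kernel

/-- the limit sets as lists -/
def lst (j : ℕ) : List ℕ :=
  if j = 1 then [1] else if j = 2 then [370] else if j = 3 then [55, 250, 133] else
    if j = 4 then [160, 217, 352] else if j = 5 then [919, 1459] else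
      if j = 6 then [136, 244] else []

theorem cyc_cls : ∀ x ∈ cyc, ∀ j : Fin 6, cls x = j.val + 1 → x ∈ lst (j.val + 1) := by
  decide +kernel

theorem lst_mem (j : Fin 6) (x : ℕ) (h : x ∈ lst (j.val + 1)) : x ∈ limitSet j := by
  fin_cases j <;> simpa [lst, limitSet] using h

theorem mem_basin_iff (j : Fin 6) (n : ℕ) (h1 : 1 ≤ n) (h2 : n < 10300) :
    n ∈ basin j ↔ cls n = j.val + 1 := by
  constructor
  · rintro ⟨_, t, ht⟩
    rw [← (cls_iter n h1 h2 t).1]
    exact cls_limit j _ ht
  · intro h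
    refine ⟨h1, 14, ?_⟩
    apply lst_mem
    apply cyc_cls _ (reach n h1 h2)
    rw [(cls_iter n h1 h2 14).1, h]

theorem S3_pos (n : ℕ) (h : 0 < n) : 0 < S3 n := by
  induction n using Nat.strong_induction_on with
  | _ n ih =>
    have h0 : n = 10 * (n / 10) + n % 10 := (Nat.div_add_mod n 10).symm
    rw [h0, S3_step _ _ (Nat.mod_lt _ (by norm_num))]
    by_cases hq : n / 10 = 0
    · have : 0 < n % 10 := by omega
      have : 0 < (n % 10) ^ 3 := pow_pos this 3
      omega
    · have := ih (n / 10) (by omega) (by omega)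
      omega

theorem basin_inv (j : Fin 6) (n : ℕ) : S3 n ∈ basin j ↔ n ∈ basin j := by
  rcases Nat.eq_zero_or_pos n with h | h
  · subst h; rw [S3_zero]
  · constructor
    · rintro ⟨_, t, ht⟩
      exact ⟨h, t + 1, by rwa [Function.iterate_succ_apply]⟩
    · rintro ⟨_, t, ht⟩
      refine ⟨S3_pos n h, ?_⟩
      cases t with
      | zero =>
        have hn : n ∈ limitSet j := ht
        -- the limit sets are closed under the map
        have hcl : S3 n ∈ limitSet j := by
          have hlt : n < 10300 := by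
            fin_cases j <;> simp [limitSet] at hn <;> omega
          have hc : cls (S3 n) = j.val + 1 := by
            rw [← (cls_facts n h hlt).1]; exact cls_limit j n hn
          have hcyc : S3 n ∈ cyc := by
            rw [S3_eq_s5 n (by omega)]
            fin_cases j <;> simp [limitSet] at hn
            · subst hn; decide
            · subst hn; decide
            · rcases hn with rfl | rfl | rfl <;> decide
            · rcases hn with rfl | rfl | rfl <;> decide
            · rcases hn with rfl | rfl <;> decide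
            · rcases hn with rfl | rfl <;> decide
          exact lst_mem j _ (cyc_cls _ hcyc j hc)
        exact ⟨0, hcl⟩
      | succ t =>
        exact ⟨t, by rwa [Function.iterate_succ_apply] at ht⟩

open Classical in
/-- the indicator of a basin -/
noncomputable def ib (j : Fin 6) (n : ℕ) : ℝ := if n ∈ basin j then 1 else 0

theorem ib_inv (j : Fin 6) : Inv (ib j) where
  nonneg n := by unfold ib; split_ifs <;> norm_num
  le_one n := by unfold ib; split_ifs <;> norm_num
  inv n := by
    have h := basin_inv j n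
    unfold ib
    by_cases h1 : n ∈ basin j
    · rw [if_pos h1, if_pos (h.mpr h1)]
    · rw [if_neg h1, if_neg (fun h2 => h1 (h.mp h2))]

end Pool.Agent.W_MP_662637_nt
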