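import Mathlib

/-!
Definitions for the statement on the cubic digit-sum map.
-/

namespace Pool.Agent.W_MP_662637_nt

/-- the sum of the cubes of the decimal digits -/
def S3 (n : ℕ) : ℕ := ((Nat.digits 10 n).map fun d => d ^ 3).sum

/-- the six limit sets in the residue class of one modulo three -/
def limitSet : Fin 6 → Set ℕ :=
  ![{1}, {370}, {55, 250, 133}, {160, 217, 352}, {919, 1459}, {136, 244}]

/-- the positive integers whose orbit under `S3` enters the limit set `j` -/
def basin (j : Fin 6) : Set ℕ := {n | 0 < n ∧ ∃ t : ℕ, S3^[t] n ∈ limitSet j}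

/-- `A` has natural density `d` -/
def HasDensity (A : Set ℕ) (d : ℝ) : Prop :=
  Filter.Tendsto (fun N : ℕ => ((A ∩ Set.Icc 1 N).ncard : ℝ) / N) Filter.atTop (nhds d)

end Pool.Agent.W_MP_662637_nt
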