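import Pool.Agent.W_MP_662637_nt.Renew

/-!
If the natural density exists, then all windows at large scales have density close to it, and
hence windows of length `10 ^ 12` have density within `1 / 240` of it.
-/

namespace Pool.Agent.W_MP_662637_nt

open Finset Filter

/-- the mean value of `a` exists and equals `D` -/
def Mean (a : ℕ → ℝ) (D : ℝ) : Prop :=
  Tendsto (fun N : ℕ => (∑ n ∈ range N, a n) / N) atTop (nhds D)

theorem Mean.compl {a : ℕ → ℝ} {D : ℝ} (hd : Mean a D) : Mean (fun n => 1 - a n) (1 - D) := by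
  unfold Mean at *
  have h1 : Tendsto (fun N : ℕ => 1 - (∑ n ∈ range N, a n) / N) atTop (nhds (1 - D)) :=
    tendsto_const_nhds.sub hd
  refine h1.congr' ?_
  filter_upwards [eventually_gt_atTop 0] with N hN
  have hN' : (N : ℝ) ≠ 0 := by exact_mod_cast hN.ne'
  rw [sum_sub_distrib, sum_const, card_range, nsmul_eq_mul, mul_one, sub_div, div_self hN']

theorem Mean.le_one {a : ℕ → ℝ} {D : ℝ} (h : Inv a) (hd : Mean a D) : D ≤ 1 := by
  unfold Mean at hd
  refine le_of_tendsto hd ?_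
  filter_upwards [eventually_gt_atTop 0] with N hN
  have hN' : (0 : ℝ) < N := by exact_mod_cast hN
  rw [div_le_one hN']
  have h1 : ∑ n ∈ range N, a n ≤ ∑ _n ∈ range N, (1 : ℝ) := sum_le_sum fun n _ => h.le_one n
  simpa using h1

theorem Wd_eq {a : ℕ → ℝ} (h : Inv a) (T k : ℕ) (hT : 1 ≤ T) :
    Wd a T k = ((T : ℝ) + 1) * ((∑ n ∈ range ((T + 1) * 10 ^ k), a n) / ((T + 1) * 10 ^ k : ℕ)) -
      T * ((∑ n ∈ range (T * 10 ^ k), a n) / (T * 10 ^ k : ℕ)) := by
  have h1 := Wn_eq h T k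
  have h2 : ∑ n ∈ range ((T + 1) * 10 ^ k), a n =
      ∑ n ∈ range (T * 10 ^ k), a n + Wn a (T * 10 ^ k) (10 ^ k) := by
    rw [Nat.succ_mul, Finset.sum_range_add]
    rfl
  have hT' : (T : ℝ) ≠ 0 := by exact_mod_cast (by omega : T ≠ 0)
  have hT1 : (T : ℝ) + 1 ≠ 0 := by positivity
  have hp : (10 : ℝ) ^ k ≠ 0 := by positivity
  rw [h2, h1]
  push_cast
  field_simp
  ring

theorem Wd_tendsto {a : ℕ → ℝ} (h : Inv a) {D : ℝ} (hd : Mean a D) (T : ℕ) (hT : 1 ≤ T) :
    Tendsto (fun k => Wd a T k) atTop (nhds D) := by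
  have hgrow : ∀ c : ℕ, 1 ≤ c → Tendsto (fun k : ℕ => c * 10 ^ k) atTop atTop := by
    intro c hc
    refine tendsto_atTop_mono (fun k => ?_) tendsto_id
    have h1 : k < 10 ^ k := Nat.lt_pow_self (by norm_num)
    calc id k ≤ 10 ^ k := h1.le
      _ ≤ c * 10 ^ k := Nat.le_mul_of_pos_left _ hc
  have h1 := hd.comp (hgrow (T + 1) (by omega))
  have h2 := hd.comp (hgrow T hT)
  have h3 := (h1.const_mul ((T : ℝ) + 1)).sub (h2.const_mul (T : ℝ))
  have h4 : ((T : ℝ) + 1) * D - T * D = D := by ring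
  rw [h4] at h3
  refine h3.congr fun k => ?_
  rw [Wd_eq h T k hT]
  rfl

theorem window_density {a : ℕ → ℝ} (h : Inv a) {D : ℝ} (hd : Mean a D) (ε : ℝ) (hε : 0 < ε) :
    ∃ m0 : ℕ, ∀ m, m0 ≤ m → ∀ T : ℕ, 1 ≤ T → T ^ 3 ≤ 10 ^ m → D - ε ≤ Wd a T m := by
  obtain ⟨e, he0, he6, heε⟩ : ∃ e : ℝ, 0 < e ∧ e ≤ 1 / 6 ∧ 6 * e ≤ ε := by
    refine ⟨min ε 1 / 6, by positivity, ?_, ?_⟩
    · have := min_le_right ε 1
      linarith
    · have := min_le_left ε 1
      linarith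
  have hD1 := hd.le_one h
  -- the number of small values
  obtain ⟨V, hV⟩ := exists_nat_gt (728 / e)
  have hVpos : (0 : ℝ) < V := lt_trans (by positivity) hV
  have hV1 : 1 ≤ V := by
    have : 0 < V := by exact_mod_cast hVpos
    omega
  have hVe : (728 : ℝ) ≤ e * V := by
    rw [div_lt_iff₀ he0] at hV
    linarith
  have hev : ∀ᶠ M in atTop, ∀ s ∈ Ico 1 (V + 1), D - e ≤ E M (fun t => a (s + t)) := by
    rw [Filter.eventually_all_finset]
    intro s hs
    rw [mem_Ico] at hs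
    have h1 := Wd_tendsto h hd (rep s) (rep_pos (by omega))
    have h2 := h1.eventually_const_le (by linarith : D - e < D)
    filter_upwards [h2] with M hM
    unfold Wd at hM
    rwa [S3_rep] at hM
  obtain ⟨M0, hM0⟩ := eventually_atTop.mp hev
  by_cases hpos : D - 2 * e ≤ 0
  · refine ⟨0, fun m _ T _ _ => ?_⟩
    have : 0 ≤ Wd a T m := by
      unfold Wd
      rw [← E_const m 0]
      exact E_mono m fun t => h.nonneg _
    linarith
  push Not at hpos
  set C : ℝ := 113670 / e ^ 3 with hC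
  have he3 : e ^ 3 ≤ 1 := pow_le_one₀ he0.le (by linarith)
  have hC1 : 1 ≤ C := by
    rw [hC, one_le_div (by positivity)]
    linarith
  obtain ⟨B, hB⟩ := exists_nat_gt (C ^ 2 + (V + 203) / e + 203 * M0 + V + 1)
  refine ⟨B, fun m hm T hT hT3 => ?_⟩
  set L := 10 ^ m with hL
  set x := T * L with hx
  have hxL : L ≤ x := by rw [hx]; exact Nat.le_mul_of_pos_left _ hT
  have hx3 : x ^ 3 ≤ L ^ 4 := by
    rw [hx, mul_pow]
    calc T ^ 3 * L ^ 3 ≤ L * L ^ 3 := Nat.mul_le_mul_right _ hT3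
      _ = L ^ 4 := by ring
  have hLm : (B : ℝ) ≤ L := by
    have h1 : m < 10 ^ m := Nat.lt_pow_self (by norm_num)
    exact_mod_cast (by omega : B ≤ L)
  have hLbig : C ^ 2 + (V + 203) / e + 203 * M0 + V + 1 ≤ L := by linarith
  have hVe0 : 0 ≤ ((V : ℝ) + 203) / e := by positivity
  have hM00 : (0 : ℝ) ≤ M0 := Nat.cast_nonneg _
  have hC20 : (0 : ℝ) ≤ C ^ 2 := by positivity
  have hLpos : (0 : ℝ) < L := by linarith
  have hLC : C ^ 2 ≤ L := by linarith
  have hLV : (V : ℝ) ≤ L := by linarith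
  have hLVe : (V : ℝ) + 203 ≤ e * L := by
    have h1 : ((V : ℝ) + 203) / e ≤ L := by linarith
    rw [div_le_iff₀ he0] at h1
    linarith
  have hLM : 203 * (M0 : ℝ) ≤ L := by linarith
  have hxL' : (L : ℝ) ≤ x := by exact_mod_cast hxL
  have hx3' : (x : ℝ) ^ 3 ≤ (L : ℝ) ^ 4 := by exact_mod_cast hx3
  have hCx : C * x ≤ (L : ℝ) ^ 2 := by
    have h1 : (C * x) ^ 3 ≤ ((L : ℝ) ^ 2) ^ 3 := by
      have h2 : C ^ 3 ≤ (L : ℝ) ^ 2 := by
        calc C ^ 3 ≤ C ^ 4 := pow_le_pow_right₀ hC1 (by norm_num)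
          _ = (C ^ 2) ^ 2 := by ring
          _ ≤ (L : ℝ) ^ 2 := pow_le_pow_left₀ hC20 hLC 2
      calc (C * x) ^ 3 = C ^ 3 * (x : ℝ) ^ 3 := by ring
        _ ≤ (L : ℝ) ^ 2 * (L : ℝ) ^ 4 := mul_le_mul h2 hx3' (by positivity) (by positivity)
        _ = _ := by ring
    exact le_of_pow_le_pow_left₀ (by norm_num) (by positivity) h1
  set δ : ℝ := e * L with hδ
  have hδpos : 0 < δ := by positivity
  set M1 := ⌈((x : ℝ) + δ) / (405 / 2)⌉₊ with hM1
  set M2 := ⌊((x : ℝ) + L - δ - V) / (405 / 2)⌋₊ + 1 with hM2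
  have heL : e * L ≤ L / 6 := by nlinarith
  have hM1a : (x : ℝ) + δ ≤ 405 / 2 * M1 := by
    have := Nat.le_ceil (((x : ℝ) + δ) / (405 / 2))
    rw [← hM1, div_le_iff₀ (by norm_num)] at this
    linarith
  have hM1b : (M1 : ℝ) < ((x : ℝ) + δ) / (405 / 2) + 1 := Nat.ceil_lt_add_one (by positivity)
  have hnn : 0 ≤ ((x : ℝ) + L - δ - V) / (405 / 2) := by
    apply div_nonneg _ (by norm_num)
    linarith
  have hM2a : ((x : ℝ) + L - δ - V) / (405 / 2) < M2 := by
    have := Nat.lt_floor_add_one (((x : ℝ) + L - δ - V) / (405 / 2))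
    rw [hM2]; push_cast; exact this
  have hM2b : ∀ M, M < M2 → (405 / 2 : ℝ) * M + δ + V ≤ x + L := by
    intro M hM
    have h1 : M ≤ ⌊((x : ℝ) + L - δ - V) / (405 / 2)⌋₊ := by omega
    have h2 : (M : ℝ) ≤ ((x : ℝ) + L - δ - V) / (405 / 2) := by
      have h3 := Nat.floor_le hnn
      have h4 : (M : ℝ) ≤ (⌊((x : ℝ) + L - δ - V) / (405 / 2)⌋₊ : ℝ) := by exact_mod_cast h1
      linarith
    rw [le_div_iff₀ (by norm_num)] at h2
    linarith
  have hM2c : (M2 : ℝ) ≤ 2 * x := by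
    have h3 := Nat.floor_le hnn
    have h4 : (M2 : ℝ) = (⌊((x : ℝ) + L - δ - V) / (405 / 2)⌋₊ : ℝ) + 1 := by
      rw [hM2]; push_cast; ring
    have h5 : ((x : ℝ) + L - δ - V) / (405 / 2) ≤ x / 100 := by
      rw [div_le_div_iff₀ (by norm_num) (by norm_num)]
      linarith
    have h6 : (1 : ℝ) ≤ x := by linarith
    linarith
  have hMM : M1 ≤ M2 := by
    have h1 : (M1 : ℝ) ≤ M2 := by
      have h2 : ((x : ℝ) + δ) / (405 / 2) + 1 ≤ ((x : ℝ) + L - δ - V) / (405 / 2) := by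
        rw [div_add_one (by norm_num : (405 / 2 : ℝ) ≠ 0),
          div_le_div_iff_of_pos_right (by norm_num)]
        linarith
      linarith
    exact_mod_cast h1
  have hη : (227337 / 4 : ℝ) * M2 ≤ e * δ ^ 2 := by
    have h1 : e * δ ^ 2 = e ^ 3 * (L : ℝ) ^ 2 := by rw [hδ]; ring
    rw [h1]
    have h2 : e ^ 3 * (C * x) ≤ e ^ 3 * (L : ℝ) ^ 2 :=
      mul_le_mul_of_nonneg_left hCx (by positivity)
    have h3 : e ^ 3 * (C * x) = 113670 * x := by rw [hC]; field_simp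
    rw [h3] at h2
    have h4 : (0 : ℝ) ≤ x := Nat.cast_nonneg x
    linarith
  have hcount := counting h x L V M1 M2 (by
      have : (V : ℝ) ≤ x := by linarith
      exact_mod_cast this) hMM D e e δ hδpos (by
      intro M h1 h2 s hs1 hs2
      apply hM0 M _ s (mem_Ico.mpr (by omega))
      have h3 : (M0 : ℝ) ≤ M := by
        have h4 : (M1 : ℝ) ≤ M := by exact_mod_cast h1
        linarith
      exact_mod_cast h3) hM1a hM2b hη
  have hN : (1 - 3 * e) * L / (405 / 2) ≤ (M2 : ℝ) - M1 := by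
    have h1 : (1 - 3 * e) * L / (405 / 2) + (((x : ℝ) + δ) / (405 / 2) + 1) ≤
        ((x : ℝ) + L - δ - V) / (405 / 2) := by
      rw [div_add_one (by norm_num : (405 / 2 : ℝ) ≠ 0), ← add_div,
        div_le_div_iff_of_pos_right (by norm_num)]
      linarith
    linarith
  have hW0 := Wn_nonneg h x L
  have h1 : (1 - 3 * e) * L / (405 / 2) * V * (D - e - e) ≤ (V + 728) / (405 / 2) * Wn a x L := by
    refine le_trans ?_ hcount
    apply mul_le_mul_of_nonneg_right _ (by linarith)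
    exact mul_le_mul_of_nonneg_right hN hVpos.le
  have h2 : (1 - 3 * e) * L * V * (D - 2 * e) ≤ (V * (1 + e)) * Wn a x L := by
    have h3 : (1 - 3 * e) * L * V * (D - 2 * e) ≤ (V + 728) * Wn a x L := by
      have e1 : (1 - 3 * e) * L / (405 / 2) * V * (D - e - e) =
        ((1 - 3 * e) * L * V * (D - 2 * e)) / (405 / 2) := by ring
      have e2 : (V + 728 : ℝ) / (405 / 2) * Wn a x L = ((V + 728) * Wn a x L) / (405 / 2) := by
        ring
      rw [e1, e2, div_le_div_iff_of_pos_right (by norm_num)] at h1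
      exact h1
    refine h3.trans ?_
    apply mul_le_mul_of_nonneg_right _ hW0
    linarith
  have h3 : (1 - 3 * e) * L * (D - 2 * e) ≤ (1 + e) * Wn a x L := by
    have e1 : (1 - 3 * e) * L * V * (D - 2 * e) = V * ((1 - 3 * e) * L * (D - 2 * e)) := by ring
    have e2 : (V * (1 + e)) * Wn a x L = V * ((1 + e) * Wn a x L) := by ring
    rw [e1, e2] at h2
    exact le_of_mul_le_mul_left h2 hVpos
  have h4 : L * (D - 6 * e) ≤ Wn a x L := by
    by_contra hcon
    push Not at hcon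
    have h5 : (1 + e) * Wn a x L < (1 + e) * (L * (D - 6 * e)) :=
      mul_lt_mul_of_pos_left hcon (by linarith)
    have h6 : (1 + e) * (L * (D - 6 * e)) ≤ (1 - 3 * e) * L * (D - 2 * e) := by
      have h7 : (1 - 3 * e) * L * (D - 2 * e) - (1 + e) * (L * (D - 6 * e)) =
          L * (4 * e * (1 - D) + 12 * e ^ 2) := by ring
      have h8 : 0 ≤ L * (4 * e * (1 - D) + 12 * e ^ 2) := by
        apply mul_nonneg hLpos.le
        have : 0 ≤ 4 * e * (1 - D) := by
          apply mul_nonneg (by linarith) (by linarith)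
        positivity
      linarith
    linarith
  have h5 := Wn_eq h T m
  rw [← hL, ← hx] at h5
  have h6 : ((10 : ℝ) ^ m) = L := by rw [hL]; push_cast; ring
  rw [h6] at h5
  rw [h5] at h4
  have h7 := le_of_mul_le_mul_left h4 hLpos
  linarith

/-- windows of length `10 ^ 12` cannot have density exceeding the mean value by more than
`1 / 240` -/
theorem window_le {a : ℕ → ℝ} (h : Inv a) {D : ℝ} (hd : Mean a D) (T : ℕ) (hT : 1 ≤ T)
    (hT3 : T ^ 3 ≤ 10 ^ 12) : Wd a T 12 ≤ D + 1 / 240 := by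
  apply le_of_forall_pos_le_add
  intro ε hε
  obtain ⟨m0, hm0⟩ := window_density h.compl hd.compl ε hε
  obtain ⟨m', T', h1, h2, h3, h4⟩ := chain h (Wd a T 12 - 1 / 240) 12 T le_rfl hT hT3
    (by norm_num) m0
  have h5 := hm0 m' h1 T' h2 h3
  have h6 : Wd (fun n => 1 - a n) T' m' = 1 - Wd a T' m' := by
    unfold Wd
    rw [E_sub m' (fun _ => 1), E_const]
  rw [h6] at h5
  linarith

theorem gap {a : ℕ → ℝ} (h : Inv a) {D : ℝ} (hd : Mean a D) (T1 T2 : ℕ) (hT1 : 1 ≤ T1)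
    (hT2 : 1 ≤ T2) (h1 : T1 ^ 3 ≤ 10 ^ 12) (h2 : T2 ^ 3 ≤ 10 ^ 12) :
    Wd a T1 12 - Wd a T2 12 ≤ 1 / 120 := by
  have k1 := window_le h hd T1 hT1 h1
  have k2 := window_le h.compl hd.compl T2 hT2 h2
  have h6 : Wd (fun n => 1 - a n) T2 12 = 1 - Wd a T2 12 := by
    unfold Wd
    rw [E_sub 12 (fun _ => 1), E_const]
  rw [h6] at k2
  linarith

end Pool.Agent.W_MP_662637_nt
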