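import Pool.Agent.W_MP_662637_nt.Correct
import Pool.Agent.W_MP_662637_nt.Density

/-!
Evaluation of the window densities.
-/

namespace Pool.Agent.W_MP_662637_nt

open Finset

theorem dig (X : ℕ) (N t : ℕ) (c : ℕ → ℕ) (hc : ∀ t, c t < X) :
    ((∑ i ∈ range N, c i * X ^ i) / X ^ t) % X = if t < N then c t else 0 := by
  have hX : 0 < X := lt_of_le_of_lt (Nat.zero_le _) (hc 0)
  induction t generalizing N c with
  | zero =>
    rw [pow_zero, Nat.div_one]
    cases N with
    | zero => simp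
    | succ n =>
      rw [if_pos (Nat.succ_pos n), sum_range_succ']
      have h1 : ∑ i ∈ range n, c (i + 1) * X ^ (i + 1) = X * ∑ i ∈ range n, c (i + 1) * X ^ i := by
        rw [mul_sum]
        exact sum_congr rfl fun i _ => by ring
      rw [h1, pow_zero, mul_one, Nat.mul_add_mod, Nat.mod_eq_of_lt (hc 0)]
  | succ t ih =>
    cases N with
    | zero => simp
    | succ n =>
      rw [sum_range_succ']
      have h1 : ∑ i ∈ range n, c (i + 1) * X ^ (i + 1) = X * ∑ i ∈ range n, c (i + 1) * X ^ i := by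
        rw [mul_sum]
        exact sum_congr rfl fun i _ => by ring
      rw [h1, pow_zero, mul_one, pow_succ', ← Nat.div_div_eq_div_mul, Nat.mul_add_div hX,
        Nat.div_eq_of_lt (hc 0), add_zero]
      have h2 := ih n (fun i => c (i + 1)) (fun i => hc _)
      rw [h2]
      by_cases h : t < n
      · rw [if_pos h, if_pos (by omega)]
      · rw [if_neg h, if_neg (by omega)]

theorem mod_div (C X h t : ℕ) (ht : t < h) : (C % X ^ h / X ^ t) % X = (C / X ^ t) % X := by
  have e : X ^ h = X ^ t * X ^ (h - t) := by rw [← pow_add]; congr 1; omega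
  rw [e, Nat.mod_mul_right_div_self, Nat.mod_mod_of_dvd]
  exact dvd_pow_self X (by omega)

theorem ev_eq (c k C M : ℕ) : ev c k C M =
    ∑ t ∈ range (2 ^ k), (if (M / 16 ^ t) % 16 = c then (C / (2 ^ 40) ^ t) % 2 ^ 40 else 0) := by
  induction k generalizing C M with
  | zero =>
    change (bif M % 16 == c then C % 2 ^ 40 else 0) = _
    rw [pow_zero, range_one, sum_singleton, pow_zero, pow_zero, Nat.div_one, Nat.div_one]
    by_cases h : M % 16 = c
    · rw [if_pos h, h]; simp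
    · rw [if_neg h]
      have : (M % 16 == c) = false := by simpa using h
      rw [this]; rfl
  | succ k ih =>
    change ev c k (C % 2 ^ (40 * 2 ^ k)) (M % 16 ^ (2 ^ k)) +
      ev c k (C / 2 ^ (40 * 2 ^ k)) (M / 16 ^ (2 ^ k)) = _
    have e : 2 ^ (k + 1) = 2 ^ k + 2 ^ k := by rw [pow_succ]; ring
    rw [ih, ih, e, Finset.sum_range_add, pow_mul]
    congr 1
    · refine sum_congr rfl fun t ht => ?_
      rw [mem_range] at ht
      rw [mod_div M 16 _ t ht, mod_div C (2 ^ 40) _ t ht]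
    · refine sum_congr rfl fun t _ => ?_
      rw [Nat.div_div_eq_div_mul, Nat.div_div_eq_div_mul, ← pow_add, ← pow_add]

theorem S3_le (k r : ℕ) (hr : r < 10 ^ k) : S3 r ≤ 729 * k := by
  induction k generalizing r with
  | zero =>
    have : r = 0 := by rw [pow_zero] at hr; omega
    subst this; simp [S3_zero]
  | succ k ih =>
    have h3 : r = 10 * (r / 10) + r % 10 := (Nat.div_add_mod r 10).symm
    rw [h3, S3_step _ _ (Nat.mod_lt _ (by norm_num))]
    have h2 := ih (r / 10) (by rw [pow_succ] at hr; omega)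
    have h4 : (r % 10) ^ 3 ≤ 9 ^ 3 := Nat.pow_le_pow_left (by omega) 3
    omega

theorem sum_range_ten' (n : ℕ) (h : ℕ → ℕ) :
    ∑ r ∈ range (n * 10), h r = ∑ q ∈ range n, ∑ d ∈ range 10, h (10 * q + d) := by
  induction n with
  | zero => simp
  | succ n ih =>
    rw [Nat.succ_mul, Finset.sum_range_add, ih,
      Finset.sum_range_succ (fun q => ∑ d ∈ range 10, h (10 * q + d)) n, mul_comm n 10]

theorem gen_count (X k : ℕ) : ∑ r ∈ range (10 ^ k), X ^ S3 r = gen X ^ k := by
  induction k with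
  | zero => simp [S3_zero]
  | succ k ih =>
    rw [pow_succ, sum_range_ten']
    have h1 : ∀ q ∈ range (10 ^ k), ∑ d ∈ range 10, X ^ S3 (10 * q + d) =
        X ^ S3 q * gen X := by
      intro q _
      have h2 : ∀ d ∈ range 10, X ^ S3 (10 * q + d) = X ^ S3 q * X ^ (d ^ 3) := by
        intro d hd
        rw [S3_step q d (mem_range.mp hd), pow_add]
      rw [sum_congr rfl h2, ← mul_sum]
      congr 1
      unfold gen
      simp only [sum_range_succ, sum_range_zero]
      norm_num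
    rw [sum_congr rfl h1, ← sum_mul, ih, pow_succ]

/-- the number of blocks of twelve digits with a given digit-cube sum -/
def cnt (t : ℕ) : ℕ := ((range (10 ^ 12)).filter fun r => S3 r = t).card

theorem cnt_lt (t : ℕ) : cnt t < 2 ^ 40 := by
  unfold cnt
  refine lt_of_le_of_lt (card_filter_le _ _) ?_
  rw [card_range]; norm_num

theorem maps (r : ℕ) (hr : r ∈ range (10 ^ 12)) : S3 r ∈ range 8749 := by
  rw [mem_range] at hr ⊢
  have := S3_le 12 r hr
  omega

theorem gen_eq (X : ℕ) : gen X ^ 12 = ∑ t ∈ range 8749, cnt t * X ^ t := by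
  rw [← gen_count, ← sum_fiberwise_of_maps_to maps]
  refine sum_congr rfl fun t _ => ?_
  rw [cnt, ← smul_eq_mul, ← sum_const]
  refine sum_congr rfl fun r hr => ?_
  rw [(mem_filter.mp hr).2]

theorem E_eq (g : ℕ → ℝ) : 10 ^ 12 * E 12 g = ∑ t ∈ range 8749, (cnt t : ℝ) * g t := by
  rw [← E_count, ← sum_fiberwise_of_maps_to maps]
  refine sum_congr rfl fun t _ => ?_
  rw [cnt, ← nsmul_eq_mul, ← sum_const]
  refine sum_congr rfl fun r hr => ?_
  rw [(mem_filter.mp hr).2]

theorem Wd_ev (j : Fin 6) (T s : ℕ) (hs : S3 T = s) (h1 : 1 ≤ s) (h2 : s + 8749 ≤ 10300) :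
    10 ^ 12 * Wd (ib j) T 12 =
      ((ev (j.val + 1) 14 (gen (2 ^ 40) ^ 12) (tab / 16 ^ s) : ℕ) : ℝ) := by
  unfold Wd
  rw [hs, E_eq, ev_eq]
  have h3 : ∀ t ∈ range (2 ^ 14), (if (tab / 16 ^ s / 16 ^ t) % 16 = j.val + 1 then
      (gen (2 ^ 40) ^ 12 / (2 ^ 40) ^ t) % 2 ^ 40 else 0) =
      if t < 8749 then (if cls (s + t) = j.val + 1 then cnt t else 0) else 0 := by
    intro t _
    rw [gen_eq, dig (2 ^ 40) 8749 t cnt cnt_lt, Nat.div_div_eq_div_mul, ← pow_add]
    change (if cls (s + t) = j.val + 1 then _ else _) = _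
    by_cases h4 : t < 8749
    · rw [if_pos h4, if_pos h4]
    · rw [if_neg h4, if_neg h4, ite_self]
  rw [sum_congr rfl h3, ← sum_filter]
  have h5 : (range (2 ^ 14)).filter (fun t => t < 8749) = range 8749 := by
    ext t
    simp only [mem_filter, mem_range]
    constructor
    · exact fun h => h.2
    · intro h; exact ⟨by omega, h⟩
  rw [h5, Nat.cast_sum]
  refine sum_congr rfl fun t ht => ?_
  rw [mem_range] at ht
  have h6 := mem_basin_iff j (s + t) (by omega) (by omega)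
  unfold ib
  by_cases h7 : s + t ∈ basin j
  · rw [if_pos h7, if_pos (h6.mp h7), mul_one]
  · rw [if_neg h7, if_neg (fun h => h7 (h6.mpr h)), mul_zero, Nat.cast_zero]

theorem two_windows (j : Fin 6) (T1 T2 s1 s2 c : ℕ) (hcj : j.val + 1 = c) (e1 : S3 T1 = s1) (e2 : S3 T2 = s2)
    (h1 : 1 ≤ s1) (h2 : 1 ≤ s2) (h3 : s1 + 8749 ≤ 10300) (h4 : s2 + 8749 ≤ 10300)
    (hc : Nat.blt (10 ^ 12 + 120 * ev c 14 (gen (2 ^ 40) ^ 12) (tab / 16 ^ s2))
      (120 * ev c 14 (gen (2 ^ 40) ^ 12) (tab / 16 ^ s1)) = true) :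
    1 / 120 < Wd (ib j) T1 12 - Wd (ib j) T2 12 := by
  subst hcj
  have k1 := Wd_ev j T1 s1 e1 h1 h3
  have k2 := Wd_ev j T2 s2 e2 h2 h4
  have k3 := Nat.lt_of_succ_le (Nat.le_of_ble_eq_true hc)
  have k4 : (((10 ^ 12 + 120 * ev (j.val + 1) 14 (gen (2 ^ 40) ^ 12) (tab / 16 ^ s2) : ℕ) : ℝ)) <
      ((120 * ev (j.val + 1) 14 (gen (2 ^ 40) ^ 12) (tab / 16 ^ s1) : ℕ) : ℝ) := by
    exact_mod_cast k3
  rw [Nat.cast_add, Nat.cast_mul, Nat.cast_mul, ← k1, ← k2] at k4
  push_cast at k4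
  linarith

end Pool.Agent.W_MP_662637_nt
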