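import Pool.Agent.W_MP_662637_nt.Defs

/-!
Averages over blocks of digits.
-/

namespace Pool.Agent.W_MP_662637_nt

open Finset

theorem S3_zero : S3 0 = 0 := by simp [S3]

theorem S3_step (q d : ℕ) (hd : d < 10) : S3 (10 * q + d) = S3 q + d ^ 3 := by
  rcases Nat.eq_zero_or_pos (10 * q + d) with h | h
  · have hq : q = 0 := by omega
    have hd0 : d = 0 := by omega
    subst hq; subst hd0; simp [S3_zero]
  · have h1 : Nat.digits 10 (10 * q + d) = d :: Nat.digits 10 q := by
      rw [add_comm]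
      exact Nat.digits_add 10 (by norm_num) d q hd (by
        by_cases h0 : d = 0
        · right; omega
        · left; exact h0)
    unfold S3
    rw [h1, List.map_cons, List.sum_cons, add_comm]

theorem S3_block (T k r : ℕ) (hr : r < 10 ^ k) : S3 (T * 10 ^ k + r) = S3 T + S3 r := by
  induction k generalizing r with
  | zero =>
    have : r = 0 := by rw [pow_zero] at hr; omega
    subst this; simp [S3_zero]
  | succ k ih =>
    have h1 : T * 10 ^ (k + 1) + r = 10 * (T * 10 ^ k + r / 10) + r % 10 := by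
      have := Nat.div_add_mod r 10
      rw [pow_succ]; linarith
    have h2 : r / 10 < 10 ^ k := by
      rw [pow_succ] at hr; omega
    have h3 : r = 10 * (r / 10) + r % 10 := (Nat.div_add_mod r 10).symm
    rw [h1, S3_step _ _ (Nat.mod_lt _ (by norm_num)), ih _ h2]
    conv_rhs => rw [h3, S3_step _ _ (Nat.mod_lt _ (by norm_num))]
    ring

/-- the average of `g` over the digit-cube sums of all blocks of `k` digits -/
noncomputable def E : ℕ → (ℕ → ℝ) → ℝ
  | 0, g => g 0
  | k + 1, g => (∑ d ∈ range 10, E k (fun t => g (t + d ^ 3))) / 10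

theorem E_zero (g : ℕ → ℝ) : E 0 g = g 0 := rfl

theorem E_succ (k : ℕ) (g : ℕ → ℝ) :
    E (k + 1) g = (∑ d ∈ range 10, E k (fun t => g (t + d ^ 3))) / 10 := rfl

theorem E_const (k : ℕ) (c : ℝ) : E k (fun _ => c) = c := by
  induction k with
  | zero => rfl
  | succ k ih => rw [E_succ, sum_congr rfl fun d _ => ih]; simp

theorem E_add (k : ℕ) (f g : ℕ → ℝ) : E k (fun t => f t + g t) = E k f + E k g := by
  induction k generalizing f g with
  | zero => rfl
  | succ k ih =>
    rw [E_succ, E_succ, E_succ, ← add_div, ← sum_add_distrib]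
    congr 1
    exact sum_congr rfl fun d _ => ih _ _

theorem E_mul (k : ℕ) (c : ℝ) (g : ℕ → ℝ) : E k (fun t => c * g t) = c * E k g := by
  induction k generalizing g with
  | zero => rfl
  | succ k ih =>
    rw [E_succ, E_succ, mul_div_assoc', mul_sum]
    congr 1
    exact sum_congr rfl fun d _ => ih _

theorem E_sub (k : ℕ) (f g : ℕ → ℝ) : E k (fun t => f t - g t) = E k f - E k g := by
  have h : (fun t => f t - g t) = fun t => f t + (-1) * g t := by funext t; ring
  rw [h, E_add, E_mul]; ring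

theorem E_mono (k : ℕ) {f g : ℕ → ℝ} (h : ∀ t, f t ≤ g t) : E k f ≤ E k g := by
  induction k generalizing f g with
  | zero => exact h 0
  | succ k ih =>
    rw [E_succ, E_succ]
    apply div_le_div_of_nonneg_right _ (by norm_num : (0 : ℝ) ≤ 10)
    exact sum_le_sum fun d _ => ih fun t => h _

theorem E_sum {ι : Type*} (k : ℕ) (s : Finset ι) (f : ι → ℕ → ℝ) :
    E k (fun t => ∑ i ∈ s, f i t) = ∑ i ∈ s, E k (f i) := by
  classical
  induction s using Finset.induction_on with
  | empty => simp [E_const]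
  | insert i s hi ih =>
    simp only [sum_insert hi]
    rw [E_add, ih]

theorem E_moment (k : ℕ) (c : ℝ) :
    E k (fun t => (t : ℝ) + c - 405 / 2 * k) = c ∧
    E k (fun t => ((t : ℝ) + c - 405 / 2 * k) ^ 2) = 227337 / 4 * k + c ^ 2 := by
  induction k generalizing c with
  | zero => constructor <;> simp [E_zero]
  | succ k ih =>
    constructor
    · rw [E_succ]
      have h : ∀ d ∈ range 10, E k (fun t => (((t + d ^ 3 : ℕ) : ℝ) + c - 405 / 2 * ((k + 1 : ℕ) : ℝ)))
          = c + (d : ℝ) ^ 3 - 405 / 2 := by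
        intro d _
        rw [← (ih (c + (d : ℝ) ^ 3 - 405 / 2)).1]
        congr 1
        funext t
        push_cast
        ring
      rw [sum_congr rfl h]
      simp only [sum_range_succ, sum_range_zero]
      push_cast
      ring
    · rw [E_succ]
      have h : ∀ d ∈ range 10, E k (fun t => (((t + d ^ 3 : ℕ) : ℝ) + c -
          405 / 2 * ((k + 1 : ℕ) : ℝ)) ^ 2) = 227337 / 4 * k + (c + (d : ℝ) ^ 3 - 405 / 2) ^ 2 := by
        intro d _
        rw [← (ih (c + (d : ℝ) ^ 3 - 405 / 2)).2]
        congr 1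
        funext t
        push_cast
        ring
      rw [sum_congr rfl h]
      simp only [sum_range_succ, sum_range_zero]
      push_cast
      ring

theorem E_var (k : ℕ) : E k (fun t => ((t : ℝ) - 405 / 2 * k) ^ 2) = 227337 / 4 * k := by
  have h := (E_moment k 0).2
  simp only [add_zero] at h
  rw [h]; ring

theorem sum_range_ten (n : ℕ) (h : ℕ → ℝ) :
    ∑ r ∈ range (n * 10), h r = ∑ q ∈ range n, ∑ d ∈ range 10, h (10 * q + d) := by
  induction n with
  | zero => simp
  | succ n ih =>
    rw [Nat.succ_mul, Finset.sum_range_add, ih,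
      Finset.sum_range_succ (fun q => ∑ d ∈ range 10, h (10 * q + d)) n, mul_comm n 10]

theorem E_count (k : ℕ) (g : ℕ → ℝ) : ∑ r ∈ range (10 ^ k), g (S3 r) = 10 ^ k * E k g := by
  induction k generalizing g with
  | zero => simp [E_zero, S3_zero]
  | succ k ih =>
    rw [pow_succ, sum_range_ten]
    have h1 : ∀ q ∈ range (10 ^ k), ∑ d ∈ range 10, g (S3 (10 * q + d)) =
        ∑ d ∈ range 10, g (S3 q + d ^ 3) := by
      intro q _
      refine sum_congr rfl fun d hd => ?_
      rw [S3_step q d (mem_range.mp hd)]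
    rw [sum_congr rfl h1, sum_comm]
    have h2 : ∀ d ∈ range 10, ∑ q ∈ range (10 ^ k), g (S3 q + d ^ 3) =
        10 ^ k * E k (fun t => g (t + d ^ 3)) := by
      intro d _
      exact ih (fun t => g (t + d ^ 3))
    rw [sum_congr rfl h2, E_succ, ← mul_sum, pow_succ]
    ring

/-- the count of a function over a window of length `10 ^ k` -/
theorem window_eq (a : ℕ → ℝ) (ha : ∀ n, a (S3 n) = a n) (T k : ℕ) :
    ∑ r ∈ range (10 ^ k), a (T * 10 ^ k + r) = 10 ^ k * E k (fun t => a (S3 T + t)) := by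
  rw [← E_count]
  refine sum_congr rfl fun r hr => ?_
  rw [← ha, S3_block T k r (mem_range.mp hr)]

/-- numbers with a prescribed digit-cube sum -/
def rep (s : ℕ) : ℕ := 10 ^ (s / 729) * ((10 ^ (s % 729) - 1) / 9) + (10 ^ (s / 729) - 1)

theorem S3_nines (q : ℕ) : S3 (10 ^ q - 1) = 729 * q := by
  induction q with
  | zero => simp [S3_zero]
  | succ q ih =>
    have h1 : 10 ^ (q + 1) - 1 = 10 * (10 ^ q - 1) + 9 := by
      have : 1 ≤ 10 ^ q := Nat.one_le_pow _ _ (by norm_num)
      rw [pow_succ]; omega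
    rw [h1, S3_step _ _ (by norm_num), ih]; ring

theorem ones_succ (r : ℕ) : (10 ^ (r + 1) - 1) / 9 = 10 * ((10 ^ r - 1) / 9) + 1 := by
  have h : ∀ r : ℕ, ∃ u, 10 ^ r - 1 = 9 * u := by
    intro r
    induction r with
    | zero => exact ⟨0, by norm_num⟩
    | succ r ih =>
      obtain ⟨u, hu⟩ := ih
      have : 1 ≤ 10 ^ r := Nat.one_le_pow _ _ (by norm_num)
      refine ⟨10 * u + 1, ?_⟩
      rw [pow_succ]; omega
  obtain ⟨u, hu⟩ := h r
  have : 1 ≤ 10 ^ r := Nat.one_le_pow _ _ (by norm_num)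
  rw [pow_succ]; omega

theorem S3_ones (r : ℕ) : S3 ((10 ^ r - 1) / 9) = r := by
  induction r with
  | zero => simp [S3_zero]
  | succ r ih => rw [ones_succ, S3_step _ _ (by norm_num), ih]; ring

theorem S3_rep (s : ℕ) : S3 (rep s) = s := by
  unfold rep
  rw [mul_comm, S3_block _ _ _ (by
    have : 1 ≤ 10 ^ (s / 729) := Nat.one_le_pow _ _ (by norm_num)
    omega), S3_ones, S3_nines]
  omega

theorem rep_pos {s : ℕ} (hs : 0 < s) : 0 < rep s := by
  rcases Nat.eq_zero_or_pos (rep s) with h | h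
  · have := S3_rep s
    rw [h, S3_zero] at this
    omega
  · exact h

theorem rep_lt (s : ℕ) : rep s < 10 ^ (s / 729 + s % 729) := by
  unfold rep
  have h1 : 1 ≤ 10 ^ (s / 729) := Nat.one_le_pow _ _ (by norm_num)
  have h2 : (10 ^ (s % 729) - 1) / 9 + 1 ≤ 10 ^ (s % 729) := by
    have : 1 ≤ 10 ^ (s % 729) := Nat.one_le_pow _ _ (by norm_num)
    omega
  rw [pow_add]
  calc 10 ^ (s / 729) * ((10 ^ (s % 729) - 1) / 9) + (10 ^ (s / 729) - 1)
      < 10 ^ (s / 729) * ((10 ^ (s % 729) - 1) / 9) + 10 ^ (s / 729) := by omega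
    _ = 10 ^ (s / 729) * ((10 ^ (s % 729) - 1) / 9 + 1) := by ring
    _ ≤ _ := Nat.mul_le_mul_left _ h2

end Pool.Agent.W_MP_662637_nt
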