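import Pool.Agent.W_MP_662637_nt.Lift

/-!
An elementary renewal bound and its consequence: if the natural density exists then windows at
large scales have density close to it.
-/

namespace Pool.Agent.W_MP_662637_nt

open Finset

/-- indicator of an interval -/
noncomputable def ind (Y V t : ℕ) : ℝ := if Y ≤ t ∧ t < Y + V then 1 else 0

/-- indicator of an initial segment -/
noncomputable def low (y t : ℕ) : ℝ := if t ≤ y then 1 else 0

theorem low_sub_nonneg (y t c : ℕ) : 0 ≤ low y t - low y (t + c) := by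
  unfold low
  split_ifs with h1 h2
  · norm_num
  · norm_num
  · omega
  · norm_num

theorem pointwise (Y V t c : ℕ) (hc : c ≤ 729) :
    (c : ℝ) * ind Y V t ≤ ∑ y ∈ range (V + 728), (low (Y + y) t - low (Y + y) (t + c)) := by
  by_cases h : Y ≤ t ∧ t < Y + V
  · have h1 : ind Y V t = 1 := if_pos h
    rw [h1, mul_one]
    have hsub : Ico (t - Y) (t - Y + c) ⊆ range (V + 728) := by
      intro y hy
      rw [mem_Ico] at hy
      rw [mem_range]
      omega
    refine le_trans (le_of_eq ?_) (sum_le_sum_of_subset_of_nonneg hsub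
      (fun y _ _ => low_sub_nonneg _ _ _))
    have h2 : ∀ y ∈ Ico (t - Y) (t - Y + c), low (Y + y) t - low (Y + y) (t + c) = 1 := by
      intro y hy
      rw [mem_Ico] at hy
      unfold low
      rw [if_pos (by omega), if_neg (by omega)]
      norm_num
    rw [sum_congr rfl h2]
    simp
  · have h1 : ind Y V t = 0 := if_neg h
    rw [h1, mul_zero]
    exact sum_nonneg fun y _ => low_sub_nonneg _ _ _

theorem renewal (Y V K : ℕ) :
    (405 / 2 : ℝ) * ∑ M ∈ range K, E M (ind Y V) ≤ V + 728 := by
  set n := V + 728 with hn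
  have h1 : ∀ M ∈ range K, (405 / 2 : ℝ) * E M (ind Y V) ≤
      ∑ y ∈ range n, (E M (low (Y + y)) - E (M + 1) (low (Y + y))) := by
    intro M _
    have h2 : ∀ y ∈ range n, E M (low (Y + y)) - E (M + 1) (low (Y + y)) =
        (∑ d ∈ range 10, E M (fun t => low (Y + y) t - low (Y + y) (t + d ^ 3))) / 10 := by
      intro y _
      rw [E_succ]
      have h3 : ∀ d ∈ range 10, E M (fun t => low (Y + y) t - low (Y + y) (t + d ^ 3)) =
          E M (low (Y + y)) - E M (fun t => low (Y + y) (t + d ^ 3)) := by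
        intro d _
        exact E_sub M _ _
      rw [sum_congr rfl h3, sum_sub_distrib, sum_const, card_range]
      simp only [nsmul_eq_mul]
      push_cast
      ring
    rw [sum_congr rfl h2, ← sum_div, sum_comm]
    have h4 : ∀ d ∈ range 10, ((d ^ 3 : ℕ) : ℝ) * E M (ind Y V) ≤
        ∑ y ∈ range n, E M (fun t => low (Y + y) t - low (Y + y) (t + d ^ 3)) := by
      intro d hd
      rw [← E_sum, ← E_mul]
      apply E_mono
      intro t
      apply pointwise
      rw [mem_range] at hd
      have : d ^ 3 ≤ 9 ^ 3 := Nat.pow_le_pow_left (by omega) 3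
      simpa using this
    have h5 := sum_le_sum h4
    rw [← sum_mul] at h5
    have h6 : ∑ d ∈ range 10, ((d ^ 3 : ℕ) : ℝ) = 2025 := by
      simp only [sum_range_succ, sum_range_zero]; norm_num
    rw [h6] at h5
    rw [le_div_iff₀ (by norm_num)]
    linarith
  rw [mul_sum]
  refine (sum_le_sum h1).trans ?_
  rw [sum_comm]
  have h7 : ∀ y ∈ range n, ∑ M ∈ range K, (E M (low (Y + y)) - E (M + 1) (low (Y + y))) ≤ 1 := by
    intro y _
    rw [sum_range_sub' (fun M => E M (low (Y + y)))]
    have h8 : E 0 (low (Y + y)) ≤ 1 := by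
      rw [E_zero]; unfold low; split_ifs <;> norm_num
    have h9 : 0 ≤ E K (low (Y + y)) := by
      rw [← E_const K 0]
      apply E_mono
      intro t; unfold low; split_ifs <;> norm_num
    linarith
  refine (sum_le_sum h7).trans ?_
  rw [sum_const, card_range, hn]
  simp

/-- the main counting inequality -/
theorem counting {a : ℕ → ℝ} (h : Inv a) (x L V M1 M2 : ℕ) (hV : V ≤ x)
    (hMM : M1 ≤ M2) (D e η δ : ℝ)
    (hδ : 0 < δ)
    (hE : ∀ M, M1 ≤ M → M < M2 → ∀ s, 1 ≤ s → s ≤ V → D - e ≤ E M (fun t => a (s + t)))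
    (hM1 : (x : ℝ) + δ ≤ 405 / 2 * M1)
    (hM2 : ∀ M, M < M2 → (405 / 2 : ℝ) * M + δ + V ≤ x + L)
    (hη : (227337 / 4 : ℝ) * M2 ≤ η * δ ^ 2) :
    ((M2 : ℝ) - M1) * V * (D - e - η) ≤ (V + 728) / (405 / 2) * Wn a x L := by
  set b : ℕ → ℝ := fun y => if x ≤ y ∧ y < x + L then a y else 0 with hb
  have hb0 : ∀ y, 0 ≤ b y := by
    intro y; simp only [hb]; split_ifs
    · exact h.nonneg y
    · exact le_refl _
  -- lower bound for each pair
  have low1 : ∀ M ∈ Ico M1 M2, ∀ s ∈ Ico 1 (V + 1), D - e - η ≤ E M (fun t => b (s + t)) := by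
    intro M hM s hs
    rw [mem_Ico] at hM hs
    have h1 := hE M hM.1 hM.2 s hs.1 (by omega)
    have h2 : E M (fun t => a (s + t)) ≤
        E M (fun t => b (s + t) + (1 / δ ^ 2) * ((t : ℝ) - 405 / 2 * M) ^ 2) := by
      apply E_mono
      intro t
      have hsq : 0 ≤ (1 / δ ^ 2) * ((t : ℝ) - 405 / 2 * M) ^ 2 := by positivity
      by_cases hI : x ≤ s + t ∧ s + t < x + L
      · have : b (s + t) = a (s + t) := if_pos hI
        rw [this]; linarith
      · have hbz : b (s + t) = 0 := if_neg hI
        rw [hbz, zero_add]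
        have hone : δ ^ 2 ≤ ((t : ℝ) - 405 / 2 * M) ^ 2 := by
          have hMM : (M1 : ℝ) ≤ M := by exact_mod_cast hM.1
          have hs1 : (1 : ℝ) ≤ s := by exact_mod_cast hs.1
          have hsV : (s : ℝ) ≤ V := by exact_mod_cast (by omega : s ≤ V)
          rcases not_and_or.mp hI with h3 | h3
          · have h4 : (s : ℝ) + t ≤ x := by
              have : s + t ≤ x := by omega
              exact_mod_cast this
            have h5 : δ ≤ 405 / 2 * (M : ℝ) - t := by linarith
            nlinarith
          · have h4 : (x : ℝ) + L ≤ s + t := by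
              have : x + L ≤ s + t := by omega
              exact_mod_cast this
            have h6 := hM2 M hM.2
            have h5 : δ ≤ (t : ℝ) - 405 / 2 * M := by linarith
            nlinarith
        have : 1 ≤ (1 / δ ^ 2) * ((t : ℝ) - 405 / 2 * M) ^ 2 := by
          rw [one_div, ← div_eq_inv_mul, one_le_div (by positivity)]
          exact hone
        exact (h.le_one _).trans this
    rw [E_add M (fun t => b (s + t)) (fun t => (1 / δ ^ 2) * ((t : ℝ) - 405 / 2 * M) ^ 2),
      E_mul, E_var] at h2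
    have h7 : (1 / δ ^ 2) * (227337 / 4 * (M : ℝ)) ≤ η := by
      rw [one_div, ← div_eq_inv_mul, div_le_iff₀ (by positivity)]
      have : (M : ℝ) ≤ M2 := by exact_mod_cast hM.2.le
      linarith
    linarith
  have low2 : ((M2 : ℝ) - M1) * V * (D - e - η) ≤
      ∑ M ∈ Ico M1 M2, ∑ s ∈ Ico 1 (V + 1), E M (fun t => b (s + t)) := by
    have h1 : ∑ M ∈ Ico M1 M2, ∑ s ∈ Ico 1 (V + 1), (D - e - η) ≤
        ∑ M ∈ Ico M1 M2, ∑ s ∈ Ico 1 (V + 1), E M (fun t => b (s + t)) :=
      sum_le_sum fun M hM => sum_le_sum fun s hs => low1 M hM s hs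
    rw [sum_const, sum_const, Nat.card_Ico, Nat.card_Ico, nsmul_eq_mul, nsmul_eq_mul,
      Nat.cast_sub hMM] at h1
    have h2 : ((V + 1 - 1 : ℕ) : ℝ) = V := by simp
    rw [h2] at h1
    linarith
  refine low2.trans ?_
  -- upper bound
  have hbsum : ∀ y, b y = ∑ j ∈ range L, (if x + j = y then a (x + j) else 0) := by
    intro y
    by_cases hy : x ≤ y ∧ y < x + L
    · have h1 : b y = a y := if_pos hy
      rw [h1, sum_eq_single (y - x)]
      · rw [if_pos (by omega)]
        congr 1; omega
      · intro j _ hj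
        rw [if_neg (by omega)]
      · intro hj
        exact absurd (mem_range.mpr (by omega)) hj
    · have h1 : b y = 0 := if_neg hy
      rw [h1]
      symm
      apply sum_eq_zero
      intro j hj
      rw [mem_range] at hj
      rw [if_neg]
      intro h2
      exact hy (by omega)
  have hpt : ∀ t, ∑ s ∈ Ico 1 (V + 1), b (s + t) =
      ∑ j ∈ range L, a (x + j) * ind (x + j - V) V t := by
    intro t
    have h1 : ∀ s ∈ Ico 1 (V + 1), b (s + t) =
        ∑ j ∈ range L, (if x + j = s + t then a (x + j) else 0) := fun s _ => hbsum _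
    rw [sum_congr rfl h1, sum_comm]
    refine sum_congr rfl fun j _ => ?_
    by_cases ht : x + j - V ≤ t ∧ t < x + j - V + V
    · have h2 : ind (x + j - V) V t = 1 := if_pos ht
      rw [h2, mul_one, sum_eq_single (x + j - t)]
      · rw [if_pos (by omega)]
      · intro s _ hs
        rw [if_neg (by omega)]
      · intro hs
        exact absurd (mem_Ico.mpr (by omega)) hs
    · have h2 : ind (x + j - V) V t = 0 := if_neg ht
      rw [h2, mul_zero]
      apply sum_eq_zero
      intro s hs
      rw [mem_Ico] at hs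
      rw [if_neg]
      intro h3
      exact ht (by omega)
  have hM : ∀ M ∈ Ico M1 M2, ∑ s ∈ Ico 1 (V + 1), E M (fun t => b (s + t)) =
      ∑ j ∈ range L, a (x + j) * E M (ind (x + j - V) V) := by
    intro M _
    rw [← E_sum, funext hpt, E_sum]
    exact sum_congr rfl fun j _ => E_mul M _ _
  rw [sum_congr rfl hM, sum_comm]
  unfold Wn
  rw [mul_sum]
  refine sum_le_sum fun j _ => ?_
  rw [← mul_sum]
  have h1 : ∑ M ∈ Ico M1 M2, E M (ind (x + j - V) V) ≤
      ∑ M ∈ range M2, E M (ind (x + j - V) V) := by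
    apply sum_le_sum_of_subset_of_nonneg
    · intro M hM
      rw [mem_Ico] at hM
      exact mem_range.mpr hM.2
    · intro M _ _
      rw [← E_const M 0]
      apply E_mono
      intro t; unfold ind; split_ifs <;> norm_num
  have h2 := renewal (x + j - V) V M2
  have h3 : ∑ M ∈ Ico M1 M2, E M (ind (x + j - V) V) ≤ (V + 728) / (405 / 2) := by
    rw [le_div_iff₀ (by norm_num)]
    linarith
  rw [mul_comm ((V + 728 : ℝ) / (405 / 2))]
  exact mul_le_mul_of_nonneg_left h3 (h.nonneg _)

end Pool.Agent.W_MP_662637_nt
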